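import Pool.Agent.Helper78.JT.Goals2

/-!
# Project JT (MP_34c247_lc), packet PJA: the choice of the parameters
-/

namespace Pool.Agent.Helper51.JT

open Pool.Agent.Helper78.DT Pool.Agent.Helper78.JT

theorem eight_lt {x1 x2 r y3 k e1 e2 e3 e4 e5 B y : ℝ} (hB : 0 < y) (hy : 1 / (64 * y) = B)
    (a1 : r * x1 ≤ B) (a2 : r * x2 ≤ B) (a3 : y3 ≤ B) (b1 : k * e1 ≤ B) (b2 : k * e2 ≤ B)
    (b3 : k * e3 ≤ B) (b4 : k * e4 ≤ B) (b5 : k * e5 ≤ B) :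
    r * (x1 + x2) + y3 + k * (e1 + (e2 + e3) + e4 + e5) < 1 / (2 * y) := by
  have e1 : 1 / (2 * y) = 32 * B := by
    rw [← hy]
    field_simp
    norm_num
  have e3 : 0 < B := by
    rw [← hy]
    positivity
  rw [e1]
  nlinarith

theorem pja (h0 : TljStmt) (h1 : Pj1Stmt) (h2 : Pj2Stmt) (h3 : Pj3Stmt) (h4 : Pj4Stmt)
    (h5 : Pj5Stmt) (h6 : Pj6Stmt) : PjaStmt := by
  intro c e
  have ha : ∃ a : ℕ, 1 ≤ a ∧ 2 * a + 3 + 2 * (c + 3) * bb a e + 7 ≤ 2 ^ (a - 1) := by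
    obtain ⟨M, hM⟩ : ∃ M, M = (c + 3) * ((e + 1) * (e + 2)) + 1 := ⟨_, rfl⟩
    refine ⟨4 * M + 20, by omega, ?_⟩
    have e1 : 2 * M + 1 ≤ 2 ^ (2 * M) := Nat.lt_two_pow_self
    have e2 : 2 ^ (4 * M + 20 - 1) = (2 ^ (2 * M)) ^ 2 * 2 ^ 19 := by
      rw [← pow_mul, ← pow_add]
      congr 1
      omega
    rw [e2]
    have e3 : (2 * M + 1) ^ 2 ≤ (2 ^ (2 * M)) ^ 2 := Nat.pow_le_pow_left e1 2
    have e4 : 2 * (4 * M + 20) + 3 + 2 * (c + 3) * bb (4 * M + 20) e + 7 =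
        2 * M * (4 * M + 25) := by
      unfold bb
      have e5 : 2 * (c + 3) * ((e + 1) * (e + 2) * (4 * M + 20 + 5)) =
        2 * ((c + 3) * ((e + 1) * (e + 2))) * (4 * M + 25) := by ring
      rw [e5]
      have e6 : (c + 3) * ((e + 1) * (e + 2)) + 1 = M := hM.symm
      generalize (c + 3) * ((e + 1) * (e + 2)) = X at e6
      subst e6
      ring
    rw [e4]
    nlinarith
  obtain ⟨a, ha1, ha2⟩ := ha
  obtain ⟨L1, h1⟩ := h1 c e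
  obtain ⟨L2, h2⟩ := h2 c a e _ rfl
  obtain ⟨L3, h3⟩ := h3 c a e
  obtain ⟨L4, h4⟩ := h4 c a e (2 * bb a e * (c + 2) + 1)
  obtain ⟨L5, h5⟩ := h5 c a e (2 * bb a e * (c + 2) + 1) ha1 ha2
  obtain ⟨L6, h6⟩ := h6 c a e (2 * bb a e * (c + 2) + 1) ha1
  refine ⟨a, 2 * bb a e * (c + 2) + 1, L1 + L2 + L3 + L4 + L5 + L6 + 1, fun L hL r hr => ?_⟩
  have a1 := h1 L (by omega) r hr
  have a2 := h2 L (by omega) r hr
  have a3 := h3 L (by omega) r hr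
  obtain ⟨b1, b2, b3, b4, b5, b6⟩ := h4 L (by omega)
  have b7 := b6 r hr
  have b8 := h5 L (by omega) r hr
  obtain ⟨c1, c2, c3, c4, c5, c6, c7, c8, c9, c10⟩ := h6 L (by omega)
  obtain ⟨-, -, -, d1⟩ := (h0 a e).1 L (by omega)
  refine ⟨c1, b1, c2, c3, c4, c5, (d1 r hr).2, c6, c7, c8, c9, c10, ?_⟩
  have hL0 : (0 : ℝ) < (L : ℝ) ^ c := pow_pos (Nat.cast_pos.2 (by omega)) c
  exact eight_lt hL0 rfl a1 a2 a3 b3 b4 b5 b7 b8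

end Pool.Agent.Helper51.JT
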