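import Pool.Agent.Helper78.JT.Goals3

/-!
# Project JT (MP_34c247_lc), packet TGJ: the total error
-/

namespace Pool.Agent.Helper51.JT

open Pool.Agent.Helper78.DT Pool.Agent.Helper78.JT
open scoped Classical

theorem tgj (hA : TojStmt) (hB : TbjStmt) : Pool.Agent.Helper78.JT.TgjStmt := by
  intro n W K t e P q r s D l R d k M η κ δ ε F hF hP hK hKP hq hm hδ hε hD hM0 hM hR hη hη1 hκ hpow
  obtain ⟨f, H, hW, hFH⟩ := hF
  have hne : Nonempty (Fin (t + 2) → Fin P) := ⟨fun _ => ⟨0, hP.pos⟩⟩
  -- the inner probabilities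
  set p1 : (Fin (t + 2) → Fin P) → ℝ := fun A' =>
    pr (fun z : Fin (Zl R d (l + 1)) × (Fin K → Fin (q * P)) =>
      F K t (pt P K t e (ext A'))
        (cut n (cnj (fun a u => sb P D (ch R d z.1 a (l + 1)) u)
          P K t e (ext A') (ext z.2))) = true) with hp1
  set p2 : (Fin (t + 2) → Fin P) → ℝ := fun A' =>
    pr (fun b : Fin n → Bool =>
      H (fun i => ev ((f i).filter (bal K t (pt P K t e (ext A')))) b) = true) with hp2
  set E2 : ℝ := (l + 1) * (2 * (2 * (2 * (P : ℝ) + 1) ^ t + 1) ^ (s * r) * ε) +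
    K * erj P r t s e η κ ((l + 1) * δ + ((P : ℝ) ^ D / R l + D / P)) with hE2
  have h12 : ∀ A', |p1 A' - p2 A'| ≤ E2 := by
    intro A'
    have h1 := hA n K t e P q r s D l R d k M η κ δ ε H hP hK hq hm hδ hε hD hM0 hM hR hη hη1 hκ
      hpow (pt P K t e (ext A')) (fun v => Nat.mod_lt _ hK)
      (fun i => (f i).filter (bal K t (pt P K t e (ext A'))))
      (by
        intro i g hg j hj
        have h2 := (List.mem_filter.1 hg).2
        simp only [bal, decide_eq_true_eq] at h2
        exact h2 j hj)
    have h3 : p1 A' = pr (fun z : Fin (Zl R d (l + 1)) × (Fin K → Fin (q * P)) =>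
        H (fun i => ev ((f i).filter (bal K t (pt P K t e (ext A'))))
          fun v => sb P D (ch R d z.1 (ext z.2 (pt P K t e (ext A') v) / P) (l + 1))
          (hs P e (ext z.2 (pt P K t e (ext A') v) % P) v)) = true) := by
      rw [hp1]
      refine pr_congr fun z => ?_
      rw [hFH]
      have h4 : cut n (cnj (fun a u => sb P D (ch R d z.1 a (l + 1)) u)
          P K t e (ext A') (ext z.2)) =
          cf (fun v : Fin n => sb P D (ch R d z.1 (ext z.2 (pt P K t e (ext A') v) / P) (l + 1))
            (hs P e (ext z.2 (pt P K t e (ext A') v) % P) v)) := by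
        funext j
        unfold cut cf cnj
        by_cases hj : j < n
        · simp [hj]
        · simp [hj]
      rw [h4]
    rw [h3]
    exact h1
  have e1 : pr (fun z : (Fin (t + 2) → Fin P) × Fin (Zl R d (l + 1)) × (Fin K → Fin (q * P)) =>
      F K t (pt P K t e (ext z.1)) (cut n (cnj (fun a u => sb P D (ch R d z.2.1 a (l + 1)) u)
        P K t e (ext z.1) (ext z.2.2))) = true) = av p1 := by
    unfold pr
    rw [av_prod]
    rfl
  have e2 : pr (fun z : (Fin (t + 2) → Fin P) × (Fin n → Bool) =>
      H (fun i => ev ((f i).filter (bal K t (pt P K t e (ext z.1)))) z.2) = true) = av p2 := by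
    unfold pr
    rw [av_prod]
    rfl
  have e3 : pr (fun b : Fin n → Bool => F 0 0 (fun _ => 0) (cf b) = true) =
      pr (fun x => H (fun i => ev (f i) x) = true) := by
    refine pr_congr fun b => ?_
    rw [← hFH b (fun _ => 0) 0 0]
    have : ∀ j, (f j).filter (bal 0 0 (fun _ => 0)) = f j := by
      intro j
      rw [List.filter_eq_self]
      intro g _
      simp [bal]
    simp only [this]
  have h5 : |av p1 - av p2| ≤ E2 := by
    rw [← av_sub]
    refine (abs_av_le _).trans ((av_mono h12).trans ?_)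
    rw [av_const]
  have h6 := hB n P K t e W r hP hK hKP hm H f hW
  rw [e2] at h6
  rw [e1, e3]
  rw [abs_le] at h5 h6 ⊢
  constructor <;> linarith [h5.1, h5.2, h6.1, h6.2]

end Pool.Agent.Helper51.JT
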